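import Pool.Agent.helper41.NU.A1
import Pool.Agent.helper41.NU.A2
import Pool.Agent.helper70.NU.A7
import Pool.Agent.helper69.NU.B1
import Pool.Agent.helper69.NU.B2
import Pool.Agent.helper51.NU.B3
import Pool.Agent.helper80.NU.B4

set_option autoImplicit false

/-! Module B5b: comparison of global and local norms; algebra of the forms `ip`, `dp`. -/

open MeasureTheory Filter Topology Set
open scoped ContDiff Manifold Matrix ENNReal ComplexOrder

noncomputable section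

namespace Pool.Agent.helper63.NU

variable {n : ℕ} {M : Type*} [TopologicalSpace M] [ChartedSpace (E n) M]
  [IsManifold 𝓘(ℂ, E n) ω M]

section aux

theorem B5b_cont_pr {k l : ℕ} {ψ : Fam n M ℝ} (hψ : IsWeight l ψ) {s t : Fam n M ℂ}
    (hs : IsSec k s) (ht : IsSec k t) {e : Ch n M} (he : e ∈ atlas (E n) M) :
    ContinuousOn (pr ψ s t e) e.target := by
  have h1 := (hs.smooth e he).continuousOn
  have h2 := (ht.smooth e he).continuousOn
  have h3 := (hψ.smooth e he).continuousOn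
  unfold pr
  refine (h1.mul (Complex.continuous_conj.comp_continuousOn h2)).mul ?_
  exact Complex.continuous_ofReal.comp_continuousOn (Real.continuous_exp.comp_continuousOn h3.neg)

theorem B5b_cont_dbv {k : ℕ} {s : Fam n M ℂ} (hs : IsSec k s) {e : Ch n M}
    (he : e ∈ atlas (E n) M) (j : Fin n) : ContinuousOn (fun y => dbv (s e) y j) e.target :=
  (contDiffOn_db e.open_target (hs.smooth e he) j).continuousOn

theorem B5b_cont_inv {k : ℕ} {ψ : Fam n M ℝ} (hψ : IsPos k ψ) {e : Ch n M}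
    (he : e ∈ atlas (E n) M) (i j : Fin n) :
    ContinuousOn (fun y => (lev (ψ e) y)⁻¹ i j) e.target :=
  (contDiffOn_lev_inv e.open_target (hψ.smooth e he) (hψ.pos e he) i j).continuousOn

theorem B5b_cont_en {k l : ℕ} {ψ : Fam n M ℝ} (hψ : IsPos l ψ) {s t : Fam n M ℂ}
    (hs : IsSec k s) (ht : IsSec k t) {e : Ch n M} (he : e ∈ atlas (E n) M) :
    ContinuousOn (en ψ s t e) e.target := by
  have h3 := (hψ.smooth e he).continuousOn
  unfold en cn
  refine ContinuousOn.mul ?_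
    (Complex.continuous_ofReal.comp_continuousOn (Real.continuous_exp.comp_continuousOn h3.neg))
  refine continuousOn_finset_sum _ fun i _ => continuousOn_finset_sum _ fun j _ => ?_
  exact ((B5b_cont_dbv hs he i).mul (B5b_cont_inv hψ he i j)).mul
    (Complex.continuous_conj.comp_continuousOn (B5b_cont_dbv ht he j))

end aux

variable [CompactSpace M] [T2Space M]
variable [MeasurableSpace M] [BorelSpace M] {μ : Measure M} {φ : Fam n M ℝ}

theorem B5b_int (hφ : IsWeight 1 φ) (hμ : IsDens μ φ) {f : M → ℂ} (hf : Continuous f) :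
    Integrable f μ := by
  haveI := isFiniteMeasure_of_isDens hφ hμ
  exact hf.integrable_of_hasCompactSupport (HasCompactSupport.of_compactSpace f)

theorem B5b_int_pr (hφ : IsWeight 1 φ) (hμ : IsDens μ φ) {k : ℕ} {ψ : Fam n M ℝ}
    (hψ : IsWeight (k + 1) ψ) {s t : Fam n M ℂ} (hs : IsSec k s) (ht : IsSec k t) :
    Integrable (fn φ (pr ψ s t)) μ :=
  B5b_int hφ hμ (continuous_fn hφ (pr_isDen hψ hs ht) fun _ he => B5b_cont_pr hψ hs ht he)

theorem B5b_int_en (hφ : IsWeight 1 φ) (hμ : IsDens μ φ) {k : ℕ} {ψ : Fam n M ℝ}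
    (hψ : IsPos (k + 1) ψ) {s t : Fam n M ℂ} (hs : IsSec k s) (ht : IsSec k t) :
    Integrable (fn φ (en ψ s t)) μ :=
  B5b_int hφ hμ (continuous_fn hφ (en_isDen hψ hs ht) fun _ he => B5b_cont_en hψ hs ht he)

/-- real nonnegative densities -/
theorem B5b_re_integral {f : M → ℂ} {g : M → ℝ} (h : ∀ x, f x = (g x : ℂ)) :
    (∫ x, f x ∂μ).re = ∫ x, g x ∂μ := by
  have h1 : ∫ x, f x ∂μ = ∫ x, ((g x : ℝ) : ℂ) ∂μ := integral_congr_ae (Eventually.of_forall h)
  rw [h1]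
  have h2 : ∫ x, ((g x : ℝ) : ℂ) ∂μ = ((∫ x, g x ∂μ : ℝ) : ℂ) := integral_ofReal
  rw [h2]
  exact Complex.ofReal_re _

/-- comparison: integral over a compact subset of a chart -/
theorem B5b_local (hφ : IsWeight 1 φ) (hμ : IsDens μ φ) {f : Fam n M ℂ} (hf : IsDen f)
    (hint : Integrable (fn φ f) μ) {g : E n → ℝ} {e : Ch n M} (he : e ∈ atlas (E n) M)
    (hg : ∀ y ∈ e.target, f e y = (g y : ℂ)) (hr : ∀ x, ∃ r : ℝ, 0 ≤ r ∧ fn φ f x = (r : ℂ))
    {K : Set (E n)} (hK : IsCompact K) (hKe : K ⊆ e.target) :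
    ∫ y in K, g y ≤ (∫ x, fn φ f x ∂μ).re := by
  classical
  choose r hr0 hr using hr
  have hfr : fn φ f = fun x => (r x : ℂ) := funext hr
  have hKm : MeasurableSet K := hK.isClosed.measurableSet
  have hS : IsCompact (e.symm '' K) := hK.image_of_continuousOn (e.continuousOn_symm.mono hKe)
  have hSm : MeasurableSet (e.symm '' K) := hS.isClosed.measurableSet
  have hSs : e.symm '' K ⊆ e.source := by
    rintro _ ⟨y, hy, rfl⟩; exact e.map_target (hKe hy)
  have hri : Integrable r μ := by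
    have := hint
    rw [hfr] at this
    exact this.re
  rw [B5b_re_integral hr]
  have h1 : ∫ x in e.source, (e.symm '' K).indicator r x ∂μ ≤ ∫ x, r x ∂μ := by
    calc ∫ x in e.source, (e.symm '' K).indicator r x ∂μ
        ≤ ∫ x, (e.symm '' K).indicator r x ∂μ :=
          setIntegral_le_integral (hri.indicator hSm)
            (Eventually.of_forall fun x => indicator_nonneg (fun x _ => hr0 x) x)
      _ ≤ ∫ x, r x ∂μ := by
          refine integral_mono (hri.indicator hSm) hri fun x => ?_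
          exact indicator_le_self' (fun x _ => hr0 x) x
  refine le_trans (le_of_eq ?_) h1
  rw [setIntegral_chart_real hφ hμ he]
  rw [← integral_indicator hKm, ← integral_indicator e.open_target.measurableSet]
  congr 1
  funext y
  by_cases hy : y ∈ K
  · have hyt := hKe hy
    rw [indicator_of_mem hy, indicator_of_mem hyt, indicator_of_mem (mem_image_of_mem _ hy)]
    have h2 := fn_eq hφ hf he (e.map_target hyt)
    rw [e.right_inv hyt, hr, hg y hyt] at h2
    have h3 : r (e.symm y) = g y * Real.exp (φ e y) := by exact_mod_cast h2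
    rw [h3, mul_assoc, ← Real.exp_add]; simp
  · rw [indicator_of_notMem hy]
    by_cases hyt : y ∈ e.target
    · rw [indicator_of_mem hyt, indicator_of_notMem, zero_mul]
      rintro ⟨z, hz, hzy⟩
      have := e.symm.injOn (hKe hz) hyt hzy
      exact hy (this ▸ hz)
    · rw [indicator_of_notMem hyt]

theorem B5b_pr_self (ψ : Fam n M ℝ) (s : Fam n M ℂ) (e : Ch n M) (y : E n) :
    pr ψ s s e y = ((‖s e y‖ ^ 2 * Real.exp (-ψ e y) : ℝ) : ℂ) := by
  unfold pr
  rw [Complex.mul_conj, Complex.normSq_eq_norm_sq]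
  push_cast; ring

theorem B5b_fn_real (φ : Fam n M ℝ) (f : Fam n M ℂ) (x : M) {r : ℝ} (hr : 0 ≤ r)
    (h : f (chartAt (E n) x) (chartAt (E n) x x) = (r : ℂ)) :
    ∃ r : ℝ, 0 ≤ r ∧ fn φ f x = (r : ℂ) := by
  refine ⟨r * Real.exp (φ (chartAt (E n) x) (chartAt (E n) x x)), by positivity, ?_⟩
  unfold fn
  rw [h]; push_cast; ring

theorem local_le_ip (hφ : IsWeight 1 φ) (hμ : IsDens μ φ) {k : ℕ} {ψ : Fam n M ℝ}
    (hψ : IsPos (k + 1) ψ) {e : Ch n M} (he : e ∈ atlas (E n) M) {K : Set (E n)}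
    (hK : IsCompact K) (hKe : K ⊆ e.target) : ∃ C : ℝ, 0 < C ∧ ∀ s : Fam n M ℂ, IsSec k s →
      ∫ y in K, ‖s e y‖ ^ 2 ≤ C * (ip μ φ ψ s s).re := by
  have hc : ContinuousOn (fun y => Real.exp (ψ e y)) K :=
    Real.continuous_exp.comp_continuousOn ((hψ.smooth e he).continuousOn.mono hKe)
  obtain ⟨C, hC⟩ := hK.bddAbove_image hc
  have hC' : ∀ y ∈ K, Real.exp (ψ e y) ≤ max C 1 := fun y hy =>
    le_max_of_le_left (hC (mem_image_of_mem _ hy))
  refine ⟨max C 1, by positivity, fun s hs => ?_⟩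
  have hKm : MeasurableSet K := hK.isClosed.measurableSet
  have hsc : ContinuousOn (fun y => ‖s e y‖ ^ 2) K :=
    (((hs.smooth e he).continuousOn.mono hKe).norm.pow 2)
  have hec : ContinuousOn (fun y => ‖s e y‖ ^ 2 * Real.exp (-ψ e y)) K :=
    hsc.mul (Real.continuous_exp.comp_continuousOn ((hψ.smooth e he).continuousOn.mono hKe).neg)
  have h1 : ∫ y in K, ‖s e y‖ ^ 2 ≤ ∫ y in K, max C 1 * (‖s e y‖ ^ 2 * Real.exp (-ψ e y)) := by
    refine setIntegral_mono_on (hsc.integrableOn_compact hK)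
      ((continuousOn_const.mul hec).integrableOn_compact hK) hKm fun y hy => ?_
    have h2 := hC' y hy
    have h3 : 1 ≤ max C 1 * Real.exp (-ψ e y) := by
      calc (1 : ℝ) = Real.exp (ψ e y) * Real.exp (-ψ e y) := by rw [← Real.exp_add]; simp
        _ ≤ _ := by gcongr
    calc ‖s e y‖ ^ 2 = ‖s e y‖ ^ 2 * 1 := by ring
      _ ≤ ‖s e y‖ ^ 2 * (max C 1 * Real.exp (-ψ e y)) := by gcongr
      _ = _ := by ring
  refine h1.trans ?_
  rw [integral_const_mul]
  refine mul_le_mul_of_nonneg_left ?_ (by positivity)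
  unfold ip
  exact B5b_local hφ hμ (pr_isDen hψ.toIsWeight hs hs) (B5b_int_pr hφ hμ hψ.toIsWeight hs hs) he
    (fun y _ => B5b_pr_self ψ s e y)
    (fun x => B5b_fn_real φ _ x (by positivity) (B5b_pr_self ψ s _ _)) hK hKe


theorem B5b_cn_smul {n : ℕ} (Θ : Matrix (Fin n) (Fin n) ℂ) (r : ℝ) (β : Fin n → ℂ) :
    (cn Θ ((r : ℂ) • β) ((r : ℂ) • β)).re = r ^ 2 * (cn Θ β β).re := by
  have : cn Θ ((r : ℂ) • β) ((r : ℂ) • β) = ((r ^ 2 : ℝ) : ℂ) * cn Θ β β := by
    unfold cn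
    simp only [Pi.smul_apply, smul_eq_mul, map_mul, Complex.conj_ofReal, Finset.mul_sum]
    refine Finset.sum_congr rfl fun i _ => Finset.sum_congr rfl fun j _ => ?_
    push_cast; ring
  rw [this, Complex.re_ofReal_mul]

theorem B5b_contG {n : ℕ} {K : Set (E n)}
    {T : E n → Matrix (Fin n) (Fin n) ℂ} (hT : ∀ i j, ContinuousOn (fun y => (T y)⁻¹ i j) K) :
    ContinuousOn (fun p : E n × (Fin n → ℂ) => (cn (T p.1) p.2 p.2).re)
      (K ×ˢ Metric.sphere (0 : Fin n → ℂ) 1) := by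
  refine Complex.continuous_re.comp_continuousOn ?_
  unfold cn
  refine continuousOn_finset_sum _ fun i _ => continuousOn_finset_sum _ fun j _ => ?_
  have h1 : ContinuousOn (fun p : E n × (Fin n → ℂ) => p.2 i)
      (K ×ˢ Metric.sphere (0 : Fin n → ℂ) 1) :=
    ((continuous_apply i).comp continuous_snd).continuousOn
  have h2 : ContinuousOn (fun p : E n × (Fin n → ℂ) => (T p.1)⁻¹ i j)
      (K ×ˢ Metric.sphere (0 : Fin n → ℂ) 1) :=
    (hT i j).comp continuousOn_fst fun p hp => hp.1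
  have h3 : ContinuousOn (fun p : E n × (Fin n → ℂ) => (starRingEnd ℂ) (p.2 j))
      (K ×ˢ Metric.sphere (0 : Fin n → ℂ) 1) :=
    (Complex.continuous_conj.comp ((continuous_apply j).comp continuous_snd)).continuousOn
  exact (h1.mul h2).mul h3

theorem B5b_pos1 {n : ℕ} {K : Set (E n)}
    {T : E n → Matrix (Fin n) (Fin n) ℂ} 
    (hp : ∀ y ∈ K, (T y).PosDef) :
   ∀ p ∈ K ×ˢ Metric.sphere (0 : Fin n → ℂ) 1, 0 < (cn (T p.1) p.2 p.2).re := by
    intro p hp'
    refine cn_self_pos (hp p.1 hp'.1) ?_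
    intro h0
    have := hp'.2
    rw [h0] at this
    simp at this

theorem B5b_up {n : ℕ} {K : Set (E n)} (hK : IsCompact K) {G : E n × (Fin n → ℂ) → ℝ}
   (hG : ContinuousOn G (K ×ˢ Metric.sphere (0 : Fin n → ℂ) 1)) :
   ∃ C : ℝ, ∀ p ∈ K ×ˢ Metric.sphere (0 : Fin n → ℂ) 1, G p ≤ C := by
  have hS : IsCompact (Metric.sphere (0 : Fin n → ℂ) 1) := isCompact_sphere _ _
  obtain ⟨C, hC⟩ := (hK.prod hS).bddAbove_image hG
  exact ⟨C, fun p hp => hC (mem_image_of_mem _ hp)⟩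

theorem B5b_low {n : ℕ} {K : Set (E n)} (hK : IsCompact K) {G : E n × (Fin n → ℂ) → ℝ}
   (hG : ContinuousOn G (K ×ˢ Metric.sphere (0 : Fin n → ℂ) 1))
   (hpos : ∀ p ∈ K ×ˢ Metric.sphere (0 : Fin n → ℂ) 1, 0 < G p) :
   ∃ c : ℝ, 0 < c ∧ ∀ p ∈ K ×ˢ Metric.sphere (0 : Fin n → ℂ) 1, c ≤ G p := by
  have hS : IsCompact (Metric.sphere (0 : Fin n → ℂ) 1) := isCompact_sphere _ _
  rcases (K ×ˢ Metric.sphere (0 : Fin n → ℂ) 1).eq_empty_or_nonempty with h | h
  · exact ⟨1, one_pos, fun p hp => by rw [h] at hp; exact hp.elim⟩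
  · obtain ⟨p, hp, hmin⟩ := (hK.prod hS).exists_isMinOn h hG
    exact ⟨_, hpos p hp, fun q hq => hmin hq⟩


theorem B5b_unit {n : ℕ} {α : Fin n → ℂ} (hα : α ≠ 0) :
    ∃ β ∈ Metric.sphere (0 : Fin n → ℂ) 1, α = ((‖α‖ : ℝ) : ℂ) • β := by
  have hn : 0 < ‖α‖ := norm_pos_iff.mpr hα
  refine ⟨(((‖α‖)⁻¹ : ℝ) : ℂ) • α, ?_, ?_⟩
  · rw [mem_sphere_iff_norm, sub_zero, norm_smul, Complex.norm_real, norm_inv, norm_norm]
    exact inv_mul_cancel₀ hn.ne'
  · rw [smul_smul, ← Complex.ofReal_mul, mul_inv_cancel₀ hn.ne', Complex.ofReal_one, one_smul]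

theorem B5b_zero {n : ℕ} (Θ : Matrix (Fin n) (Fin n) ℂ) : cn Θ 0 0 = 0 := by
  simp [cn]

theorem B5b_fin {n : ℕ} {Θ : Matrix (Fin n) (Fin n) ℂ} {c C : ℝ} 
    (h1 : ∀ β ∈ Metric.sphere (0 : Fin n → ℂ) 1, c ≤ (cn Θ β β).re)
    (h2 : ∀ β ∈ Metric.sphere (0 : Fin n → ℂ) 1, (cn Θ β β).re ≤ C) (α : Fin n → ℂ) :
      c * ‖α‖ ^ 2 ≤ (cn Θ α α).re ∧ (cn Θ α α).re ≤ C * ‖α‖ ^ 2 := by
  by_cases hα : α = 0
  · subst hα
    rw [B5b_zero]; simp
  obtain ⟨β, hβS, hαβ⟩ := B5b_unit hα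
  have hcn : (cn Θ α α).re = ‖α‖ ^ 2 * (cn Θ β β).re := by
    have := B5b_cn_smul Θ ‖α‖ β
    rw [← hαβ] at this
    exact this
  rw [hcn]
  have h3 := sq_nonneg ‖α‖
  constructor
  · rw [mul_comm]; exact mul_le_mul_of_nonneg_left (h1 β hβS) h3
  · rw [mul_comm C]; exact mul_le_mul_of_nonneg_left (h2 β hβS) h3


/-- uniform comparison of the Hermitian product with the sup norm on a compact set -/
theorem B5b_bounds_aux {n : ℕ} {K : Set (E n)} (hK : IsCompact K)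
    {T : E n → Matrix (Fin n) (Fin n) ℂ} (hT : ∀ i j, ContinuousOn (fun y => (T y)⁻¹ i j) K)
    (hp : ∀ y ∈ K, (T y).PosDef) :
    ∃ c C : ℝ, 0 < c ∧ 0 < C ∧ ∀ y ∈ K, ∀ α : Fin n → ℂ,
      c * ‖α‖ ^ 2 ≤ (cn (T y) α α).re ∧ (cn (T y) α α).re ≤ C * ‖α‖ ^ 2 := by
  obtain ⟨c, hc0, hc⟩ := B5b_low hK (B5b_contG hT) (B5b_pos1 hp)
  obtain ⟨C, hC⟩ := B5b_up hK (B5b_contG hT)
  refine ⟨c, max C 1, hc0, lt_max_of_lt_right one_pos, fun y hy α => ?_⟩
  have h1 : ∀ β ∈ Metric.sphere (0 : Fin n → ℂ) 1, c ≤ (cn (T y) β β).re := by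
    intro β hβ
    exact hc (y, β) (Set.mk_mem_prod hy hβ)
  have h2 : ∀ β ∈ Metric.sphere (0 : Fin n → ℂ) 1, (cn (T y) β β).re ≤ max C 1 := by
    intro β hβ
    exact le_max_of_le_left (hC (y, β) (Set.mk_mem_prod hy hβ))
  exact B5b_fin h1 h2 α

theorem B5b_cn_bounds {k : ℕ} {ψ : Fam n M ℝ} (hψ : IsPos k ψ) {e : Ch n M}
    (he : e ∈ atlas (E n) M) {K : Set (E n)} (hK : IsCompact K) (hKe : K ⊆ e.target) :
    ∃ c C : ℝ, 0 < c ∧ 0 < C ∧ ∀ y ∈ K, ∀ α : Fin n → ℂ,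
      c * ‖α‖ ^ 2 ≤ (cn (lev (ψ e) y) α α).re ∧ (cn (lev (ψ e) y) α α).re ≤ C * ‖α‖ ^ 2 :=
  B5b_bounds_aux hK (fun i j => (B5b_cont_inv hψ he i j).mono hKe)
    fun y hy => hψ.pos e he y (hKe hy)

theorem B5b_en_self {k : ℕ} {ψ : Fam n M ℝ} (hψ : IsPos k ψ) (s : Fam n M ℂ) {e : Ch n M}
    (he : e ∈ atlas (E n) M) {y : E n} (hy : y ∈ e.target) :
    en ψ s s e y = (((cn (lev (ψ e) y) (dbv (s e) y) (dbv (s e) y)).re * Real.exp (-ψ e y) : ℝ) : ℂ) := by
  unfold en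
  have h := cn_self_im (hψ.pos e he y hy) (dbv (s e) y)
  push_cast
  congr 1
  apply Complex.ext <;> simp [h]

theorem B5b_en_real {k : ℕ} (φ : Fam n M ℝ) {ψ : Fam n M ℝ} (hψ : IsPos k ψ) (s : Fam n M ℂ)
    (x : M) : ∃ r : ℝ, 0 ≤ r ∧ fn φ (en ψ s s) x = (r : ℂ) := by
  have hm := mem_chart_target (E n) x
  refine B5b_fn_real φ _ x ?_ (B5b_en_self hψ s (chart_mem_atlas (E n) x) hm)
  exact mul_nonneg (cn_self_nonneg (hψ.pos _ (chart_mem_atlas (E n) x) _ hm) _) (Real.exp_pos _).le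

theorem local_le_dp (hφ : IsWeight 1 φ) (hμ : IsDens μ φ) {k : ℕ} {ψ : Fam n M ℝ}
    (hψ : IsPos (k + 1) ψ) {e : Ch n M} (he : e ∈ atlas (E n) M) {K : Set (E n)}
    (hK : IsCompact K) (hKe : K ⊆ e.target) : ∃ C : ℝ, 0 < C ∧ ∀ s : Fam n M ℂ, IsSec k s →
      ∀ j, ∫ y in K, ‖db j (s e) y‖ ^ 2 ≤ C * (dp μ φ ψ s s).re := by
  have hc : ContinuousOn (fun y => Real.exp (ψ e y)) K :=
    Real.continuous_exp.comp_continuousOn ((hψ.smooth e he).continuousOn.mono hKe)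
  obtain ⟨C, hC⟩ := hK.bddAbove_image hc
  obtain ⟨c, C', hc0, _, hcn⟩ := B5b_cn_bounds hψ he hK hKe
  have hC' : ∀ y ∈ K, Real.exp (ψ e y) ≤ max C 1 := fun y hy =>
    le_max_of_le_left (hC (mem_image_of_mem _ hy))
  refine ⟨max C 1 / c, by positivity, fun s hs j => ?_⟩
  have hKm : MeasurableSet K := hK.isClosed.measurableSet
  have hsc : ContinuousOn (fun y => ‖db j (s e) y‖ ^ 2) K :=
    (((B5b_cont_dbv hs he j).mono hKe).norm.pow 2)
  have hec : ContinuousOn (fun y => (cn (lev (ψ e) y) (dbv (s e) y) (dbv (s e) y)).re *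
      Real.exp (-ψ e y)) K := by
    have h1 := Complex.continuous_re.comp_continuousOn ((B5b_cont_en hψ hs hs he).mono hKe)
    refine h1.congr fun y hy => ?_
    simp only [Function.comp_apply]
    rw [B5b_en_self hψ s he (hKe hy), Complex.ofReal_re]
  have h1 : ∫ y in K, ‖db j (s e) y‖ ^ 2 ≤ ∫ y in K, (max C 1 / c) *
      ((cn (lev (ψ e) y) (dbv (s e) y) (dbv (s e) y)).re * Real.exp (-ψ e y)) := by
    refine setIntegral_mono_on (hsc.integrableOn_compact hK)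
      ((continuousOn_const.mul hec).integrableOn_compact hK) hKm fun y hy => ?_
    have h2 := hC' y hy
    have h3 : 1 ≤ max C 1 * Real.exp (-ψ e y) := by
      calc (1 : ℝ) = Real.exp (ψ e y) * Real.exp (-ψ e y) := by rw [← Real.exp_add]; simp
        _ ≤ _ := by gcongr
    have h4 := (hcn y hy (dbv (s e) y)).1
    have h5 : ‖db j (s e) y‖ ≤ ‖dbv (s e) y‖ := norm_le_pi_norm (dbv (s e) y) j
    have h6 : ‖db j (s e) y‖ ^ 2 ≤ (cn (lev (ψ e) y) (dbv (s e) y) (dbv (s e) y)).re / c := by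
      rw [le_div_iff₀ hc0]
      calc ‖db j (s e) y‖ ^ 2 * c ≤ ‖dbv (s e) y‖ ^ 2 * c := by gcongr
        _ = c * ‖dbv (s e) y‖ ^ 2 := by ring
        _ ≤ _ := h4
    have h7 : 0 ≤ (cn (lev (ψ e) y) (dbv (s e) y) (dbv (s e) y)).re / c :=
      le_trans (by positivity) h6
    calc ‖db j (s e) y‖ ^ 2 ≤ (cn (lev (ψ e) y) (dbv (s e) y) (dbv (s e) y)).re / c := h6
      _ = (cn (lev (ψ e) y) (dbv (s e) y) (dbv (s e) y)).re / c * 1 := by ring
      _ ≤ (cn (lev (ψ e) y) (dbv (s e) y) (dbv (s e) y)).re / c *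
          (max C 1 * Real.exp (-ψ e y)) := by gcongr
      _ = _ := by ring
  refine h1.trans ?_
  rw [integral_const_mul]
  refine mul_le_mul_of_nonneg_left ?_ (by positivity)
  unfold dp
  exact B5b_local hφ hμ (en_isDen hψ hs hs) (B5b_int_en hφ hμ hψ hs hs) he
    (fun y hy => B5b_en_self hψ s he hy)
    (fun x => B5b_en_real φ hψ s x) hK hKe


/-- global integral of a density with compact support in a chart -/
theorem B5b_ext (hφ : IsWeight 1 φ) (hμ : IsDens μ φ) {f : Fam n M ℂ} (hf : IsDen f)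
    {e : Ch n M} (he : e ∈ atlas (E n) M) (h0 : ∀ x ∉ e.source, fn φ f x = 0)
    {g : E n → ℝ} (hg : ∀ y ∈ e.target, f e y = (g y : ℂ))
    {K : Set (E n)} (hK : IsCompact K) (hKe : K ⊆ e.target)
    (hgK : ∀ y ∈ e.target, y ∉ K → g y = 0) :
    (∫ x, fn φ f x ∂μ).re = ∫ y in K, g y := by
  have h1 : ∫ x, fn φ f x ∂μ = ∫ x in e.source, fn φ f x ∂μ := by
    rw [setIntegral_eq_integral_of_forall_compl_eq_zero h0]
  have hKm : MeasurableSet K := hK.isClosed.measurableSet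
  rw [h1, setIntegral_fn hφ hμ hf he, setIntegral_congr_fun e.open_target.measurableSet hg]
  have h2 : ∫ y in e.target, ((g y : ℝ) : ℂ) = ((∫ y in e.target, g y : ℝ) : ℂ) := integral_ofReal
  rw [h2, Complex.ofReal_re]
  rw [← integral_indicator e.open_target.measurableSet, ← integral_indicator hKm]
  congr 1
  funext y
  by_cases hy : y ∈ K
  · rw [indicator_of_mem hy, indicator_of_mem (hKe hy)]
  · rw [indicator_of_notMem hy]
    by_cases hyt : y ∈ e.target
    · rw [indicator_of_mem hyt, hgK y hyt hy]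
    · rw [indicator_of_notMem hyt]

theorem B5b_ext_zero (k : ℕ) (e : Ch n M) (u : E n → ℂ) {e' : Ch n M} {y : E n}
    (h : e'.symm y ∉ e.source) : (ext k e u : Fam n M ℂ) e' y = 0 := by
  unfold ext
  rw [if_neg fun h' => h h'.2]

theorem B5b_ext_zero' (k : ℕ) (e : Ch n M) (u : E n → ℂ) {e' : Ch n M} {y : E n}
    (h : u (e (e'.symm y)) = 0) : (ext k e u : Fam n M ℂ) e' y = 0 := by
  unfold ext
  split_ifs
  · rw [h, mul_zero]
  · rfl

theorem B5b_u_zero {u : E n → ℂ} {K : Set (E n)} (hu : tsupport u ⊆ K) {y : E n} (hy : y ∉ K) :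
    u y = 0 := by
  by_contra h
  exact hy (hu (subset_tsupport u h))

/-- the extension vanishes near the points outside the chart -/
theorem B5b_ext_germ (k : ℕ) {e : Ch n M} {u : E n → ℂ} {K : Set (E n)} (hK : IsCompact K)
    (hKe : K ⊆ e.target) (hu : tsupport u ⊆ K) {x : M} (hx : x ∉ e.source) (e' : Ch n M)
    (hx' : x ∈ e'.source) : (ext k e u : Fam n M ℂ) e' =ᶠ[𝓝 (e' x)] fun _ => 0 := by
  have hS : IsCompact (e.symm '' K) := hK.image_of_continuousOn (e.continuousOn_symm.mono hKe)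
  have hxS : x ∉ e.symm '' K := by
    rintro ⟨y, hy, rfl⟩
    exact hx (e.map_target (hKe hy))
  have h1 : (e.symm '' K)ᶜ ∈ 𝓝 x := hS.isClosed.isOpen_compl.mem_nhds hxS
  have h2 : Tendsto e'.symm (𝓝 (e' x)) (𝓝 x) := by
    have := e'.symm.continuousAt (x := e' x) (e'.map_source hx')
    rw [ContinuousAt, e'.left_inv hx'] at this
    exact this
  filter_upwards [h2 h1] with z hz
  by_cases hzs : e'.symm z ∈ e.source
  · refine B5b_ext_zero' k e u (B5b_u_zero hu fun hzK => hz ?_)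
    exact ⟨_, hzK, e.left_inv hzs⟩
  · exact B5b_ext_zero k e u hzs

theorem ip_ext_le (hφ : IsWeight 1 φ) (hμ : IsDens μ φ) {k : ℕ} {ψ : Fam n M ℝ}
    (hψ : IsPos (k + 1) ψ) {e : Ch n M} (he : e ∈ atlas (E n) M) {K : Set (E n)}
    (hK : IsCompact K) (hKe : K ⊆ e.target) : ∃ C : ℝ, 0 < C ∧ ∀ u : E n → ℂ, ContDiff ℝ ∞ u →
      tsupport u ⊆ K → (ip μ φ ψ (ext k e u) (ext k e u)).re ≤ C * ∫ y, ‖u y‖ ^ 2 := by
  have hc : ContinuousOn (fun y => Real.exp (-ψ e y)) K :=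
    Real.continuous_exp.comp_continuousOn ((hψ.smooth e he).continuousOn.mono hKe).neg
  obtain ⟨C, hC⟩ := hK.bddAbove_image hc
  have hC' : ∀ y ∈ K, Real.exp (-ψ e y) ≤ max C 1 := fun y hy =>
    le_max_of_le_left (hC (mem_image_of_mem _ hy))
  refine ⟨max C 1, lt_max_of_lt_right one_pos, fun u hu hsu => ?_⟩
  have hcs : HasCompactSupport u := hK.of_isClosed_subset (isClosed_tsupport u) hsu
  have hs : IsSec k (ext k e u : Fam n M ℂ) := ext_isSec k he hu hcs (hsu.trans hKe)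
  have hKm : MeasurableSet K := hK.isClosed.measurableSet
  have hf := pr_isDen hψ.toIsWeight hs hs
  have h1 : (ip μ φ ψ (ext k e u) (ext k e u)).re
      = ∫ y in K, ‖u y‖ ^ 2 * Real.exp (-ψ e y) := by
    unfold ip
    refine B5b_ext hφ hμ hf he ?_ ?_ hK hKe ?_
    · intro x hx
      have h2 : (ext k e u : Fam n M ℂ) (chartAt (E n) x) (chartAt (E n) x x) = 0 := by
        apply B5b_ext_zero
        rwa [(chartAt (E n) x).left_inv (mem_chart_source (E n) x)]
      unfold fn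
      rw [B5b_pr_self, h2]
      simp
    · intro y hy
      rw [B5b_pr_self, ext_apply k he u hy]
    · intro y _ hyK
      rw [B5b_u_zero hsu hyK]; simp
  have hui : IntegrableOn (fun y => ‖u y‖ ^ 2) K :=
    ((hu.continuous.norm.pow 2).continuousOn).integrableOn_compact hK
  rw [h1]
  have h2 : ∫ y, ‖u y‖ ^ 2 = ∫ y in K, ‖u y‖ ^ 2 := by
    symm
    refine setIntegral_eq_integral_of_forall_compl_eq_zero fun y hy => ?_
    rw [B5b_u_zero hsu hy]; simp
  rw [h2, ← integral_const_mul]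
  refine setIntegral_mono_on ?_ (hui.const_mul _) hKm fun y hy => ?_
  · exact (((hu.continuous.norm.pow 2).continuousOn).mul hc).integrableOn_compact hK
  · rw [mul_comm]
    exact mul_le_mul_of_nonneg_right (hC' y hy) (by positivity)

theorem B5b_norm_sq_le (α : Fin n → ℂ) : ‖α‖ ^ 2 ≤ ∑ j, ‖α j‖ ^ 2 := by
  have h0 : 0 ≤ ∑ j, ‖α j‖ ^ 2 := Finset.sum_nonneg fun _ _ => by positivity
  have h1 : ‖α‖ ≤ Real.sqrt (∑ j, ‖α j‖ ^ 2) := by
    refine (pi_norm_le_iff_of_nonneg (Real.sqrt_nonneg _)).mpr fun j => ?_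
    refine Real.le_sqrt_of_sq_le ?_
    exact Finset.single_le_sum (f := fun j => ‖α j‖ ^ 2) (fun _ _ => by positivity)
      (Finset.mem_univ j)
  calc ‖α‖ ^ 2 ≤ Real.sqrt (∑ j, ‖α j‖ ^ 2) ^ 2 := by gcongr
    _ = _ := Real.sq_sqrt h0

theorem B5b_db_zero {u : E n → ℂ} {K : Set (E n)} (hu : tsupport u ⊆ K) {y : E n} (hy : y ∉ K)
    (j : Fin n) : db j u y = 0 :=
  B5b_u_zero ((tsupport_db_subset u j).trans hu) hy

theorem dp_ext_le (hφ : IsWeight 1 φ) (hμ : IsDens μ φ) {k : ℕ} {ψ : Fam n M ℝ}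
    (hψ : IsPos (k + 1) ψ) {e : Ch n M} (he : e ∈ atlas (E n) M) {K : Set (E n)}
    (hK : IsCompact K) (hKe : K ⊆ e.target) : ∃ C : ℝ, 0 < C ∧ ∀ u : E n → ℂ, ContDiff ℝ ∞ u →
      tsupport u ⊆ K → (dp μ φ ψ (ext k e u) (ext k e u)).re ≤ C * ∑ j, ∫ y, ‖db j u y‖ ^ 2 := by
  have hc : ContinuousOn (fun y => Real.exp (-ψ e y)) K :=
    Real.continuous_exp.comp_continuousOn ((hψ.smooth e he).continuousOn.mono hKe).neg
  obtain ⟨C, hC⟩ := hK.bddAbove_image hc
  have hC' : ∀ y ∈ K, Real.exp (-ψ e y) ≤ max C 1 := fun y hy =>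
    le_max_of_le_left (hC (mem_image_of_mem _ hy))
  obtain ⟨_, D, _, hD, hcn⟩ := B5b_cn_bounds hψ he hK hKe
  have hM : 0 < max C 1 := lt_max_of_lt_right one_pos
  refine ⟨max C 1 * D, mul_pos hM hD, fun u hu hsu => ?_⟩
  have hcs : HasCompactSupport u := hK.of_isClosed_subset (isClosed_tsupport u) hsu
  have hs : IsSec k (ext k e u : Fam n M ℂ) := ext_isSec k he hu hcs (hsu.trans hKe)
  have hKm : MeasurableSet K := hK.isClosed.measurableSet
  have hf := en_isDen hψ hs hs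
  have hdb : ∀ y ∈ e.target, dbv ((ext k e u : Fam n M ℂ) e) y = dbv u y := by
    intro y hy
    funext j
    refine db_congr ?_ j
    filter_upwards [e.open_target.mem_nhds hy] with z hz
    exact ext_apply k he u hz
  have h1 : (dp μ φ ψ (ext k e u) (ext k e u)).re
      = ∫ y in K, (cn (lev (ψ e) y) (dbv u y) (dbv u y)).re * Real.exp (-ψ e y) := by
    unfold dp
    refine B5b_ext hφ hμ hf he ?_ ?_ hK hKe ?_
    · intro x hx
      have h2 : dbv ((ext k e u : Fam n M ℂ) (chartAt (E n) x)) (chartAt (E n) x x) = 0 := by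
        funext j
        have := B5b_ext_germ k hK hKe hsu hx (chartAt (E n) x) (mem_chart_source (E n) x)
        exact (db_congr this j).trans (db_const 0 j _)
      unfold fn en
      rw [h2, B5b_zero]
      simp
    · intro y hy
      rw [B5b_en_self hψ _ he hy, hdb y hy]
    · intro y _ hyK
      have h2 : dbv u y = 0 := by
        funext j
        exact B5b_db_zero hsu hyK j
      rw [h2, B5b_zero]; simp
  have hdc : ∀ j, Continuous (db j u) := fun j => (contDiff_db hu j).continuous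
  have hui : ∀ j, IntegrableOn (fun y => ‖db j u y‖ ^ 2) K := fun j =>
    (((hdc j).norm.pow 2).continuousOn).integrableOn_compact hK
  have h2 : ∀ j, ∫ y, ‖db j u y‖ ^ 2 = ∫ y in K, ‖db j u y‖ ^ 2 := by
    intro j
    symm
    refine setIntegral_eq_integral_of_forall_compl_eq_zero fun y hy => ?_
    rw [B5b_db_zero hsu hy]; simp
  have hcont : ContinuousOn (fun y => (cn (lev (ψ e) y) (dbv u y) (dbv u y)).re *
      Real.exp (-ψ e y)) K := by
    have h1 := Complex.continuous_re.comp_continuousOn ((B5b_cont_en hψ hs hs he).mono hKe)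
    refine h1.congr fun y hy => ?_
    simp only [Function.comp_apply]
    rw [B5b_en_self hψ _ he (hKe hy), Complex.ofReal_re, hdb y (hKe hy)]
  rw [h1, Finset.sum_congr rfl fun j _ => h2 j, ← integral_finset_sum _ fun j _ => hui j,
    ← integral_const_mul]
  refine setIntegral_mono_on (hcont.integrableOn_compact hK)
    ((integrable_finset_sum _ fun j _ => hui j).const_mul _) hKm fun y hy => ?_
  have h3 := (hcn y hy (dbv u y)).2
  have h4 := B5b_norm_sq_le (dbv u y)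
  have h5 : (cn (lev (ψ e) y) (dbv u y) (dbv u y)).re ≤ D * ∑ j, ‖db j u y‖ ^ 2 :=
    h3.trans (mul_le_mul_of_nonneg_left h4 hD.le)
  have h6 : 0 ≤ D * ∑ j, ‖db j u y‖ ^ 2 :=
    mul_nonneg hD.le (Finset.sum_nonneg fun _ _ => by positivity)
  calc (cn (lev (ψ e) y) (dbv u y) (dbv u y)).re * Real.exp (-ψ e y)
      ≤ (D * ∑ j, ‖db j u y‖ ^ 2) * max C 1 :=
        mul_le_mul h5 (hC' y hy) (Real.exp_pos _).le h6
    _ = _ := by ring

/-! algebra of the two forms -/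

theorem ip_add_left (hφ : IsWeight 1 φ) (hμ : IsDens μ φ) {k : ℕ} {ψ : Fam n M ℝ}
    (hψ : IsWeight (k + 1) ψ) {s s' t : Fam n M ℂ} (hs : IsSec k s) (hs' : IsSec k s')
    (ht : IsSec k t) : ip μ φ ψ (s + s') t = ip μ φ ψ s t + ip μ φ ψ s' t := by
  unfold ip
  rw [← integral_add (B5b_int_pr hφ hμ hψ hs ht) (B5b_int_pr hφ hμ hψ hs' ht)]
  refine integral_congr_ae (Eventually.of_forall fun x => ?_)
  simp only [fn, pr, Pi.add_apply]
  ring

theorem ip_smul_left (μ : Measure M) (φ ψ : Fam n M ℝ) (c : ℂ) (s t : Fam n M ℂ) :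
    ip μ φ ψ (c • s) t = c * ip μ φ ψ s t := by
  unfold ip
  rw [← integral_const_mul]
  refine integral_congr_ae (Eventually.of_forall fun x => ?_)
  simp only [fn, pr, Pi.smul_apply, smul_eq_mul]
  ring

theorem ip_conj (μ : Measure M) (φ ψ : Fam n M ℝ) (s t : Fam n M ℂ) :
    (starRingEnd ℂ) (ip μ φ ψ s t) = ip μ φ ψ t s := by
  unfold ip
  rw [← integral_conj]
  refine integral_congr_ae (Eventually.of_forall fun x => ?_)
  simp only [fn, pr, map_mul, Complex.conj_conj, Complex.conj_ofReal]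
  ring

theorem ip_self_nonneg (μ : Measure M) (φ ψ : Fam n M ℝ) (s : Fam n M ℂ) :
    0 ≤ (ip μ φ ψ s s).re := by
  have h : ∀ x, ∃ r : ℝ, 0 ≤ r ∧ fn φ (pr ψ s s) x = (r : ℂ) := fun x =>
    B5b_fn_real φ _ x (by positivity) (B5b_pr_self ψ s _ _)
  choose r hr0 hr using h
  unfold ip
  rw [B5b_re_integral hr]
  exact integral_nonneg hr0

theorem ip_self_eq_zero (hφ : IsWeight 1 φ) (hμ : IsDens μ φ) {k : ℕ} {ψ : Fam n M ℝ}
    (hψ : IsWeight (k + 1) ψ) {s : Fam n M ℂ} (hs : IsSec k s) (h : (ip μ φ ψ s s).re = 0) :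
    ∀ e ∈ atlas (E n) M, ∀ y ∈ e.target, s e y = 0 := by
  have h' : ∀ x, ∃ r : ℝ, 0 ≤ r ∧ fn φ (pr ψ s s) x = (r : ℂ) := fun x =>
    B5b_fn_real φ _ x (by positivity) (B5b_pr_self ψ s _ _)
  choose r hr0 hr using h'
  have hc : Continuous (fn φ (pr ψ s s)) :=
    continuous_fn hφ (pr_isDen hψ hs hs) fun _ he => B5b_cont_pr hψ hs hs he
  have hrc : Continuous r := by
    have : r = fun x => (fn φ (pr ψ s s) x).re := by
      funext x; rw [hr, Complex.ofReal_re]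
    rw [this]
    exact Complex.continuous_re.comp hc
  haveI := isOpenPosMeasure_of_isDens hφ hμ
  have hri : Integrable r μ := by
    have := (B5b_int_pr hφ hμ hψ hs hs).re
    refine this.congr (Eventually.of_forall fun x => ?_)
    simp only [hr]
    exact Complex.ofReal_re _
  unfold ip at h
  rw [B5b_re_integral hr, integral_eq_zero_iff_of_nonneg hr0 hri] at h
  have hr' : r = 0 := hrc.ae_eq_iff_eq μ continuous_zero |>.mp h
  intro e he y hy
  have hf := fn_eq hφ (pr_isDen hψ hs hs) he (e.map_target hy)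
  rw [e.right_inv hy, hr, hr', B5b_pr_self] at hf
  have h1 : (0 : ℝ) = ‖s e y‖ ^ 2 * Real.exp (-ψ e y) * Real.exp (φ e y) := by
    exact_mod_cast hf
  have h2 : ‖s e y‖ ^ 2 = 0 := by
    have hp1 := Real.exp_pos (-ψ e y)
    have hp2 := Real.exp_pos (φ e y)
    rcases mul_eq_zero.mp h1.symm with h3 | h3
    · rcases mul_eq_zero.mp h3 with h4 | h4
      · exact h4
      · exact absurd h4 hp1.ne'
    · exact absurd h3 hp2.ne'
  exact norm_eq_zero.mp (pow_eq_zero_iff (two_ne_zero) |>.mp h2)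

theorem B5b_dbv_add {k : ℕ} {s s' : Fam n M ℂ} (hs : IsSec k s) (hs' : IsSec k s') {e : Ch n M}
    (he : e ∈ atlas (E n) M) {y : E n} (hy : y ∈ e.target) :
    dbv ((s + s') e) y = fun j => dbv (s e) y j + dbv (s' e) y j := by
  funext j
  have h1 : DifferentiableAt ℝ (s e) y :=
    ((hs.smooth e he).contDiffAt (e.open_target.mem_nhds hy)).differentiableAt (by simp)
  have h2 : DifferentiableAt ℝ (s' e) y :=
    ((hs'.smooth e he).contDiffAt (e.open_target.mem_nhds hy)).differentiableAt (by simp)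
  exact db_add h1 h2 j

theorem dp_add_left (hφ : IsWeight 1 φ) (hμ : IsDens μ φ) {k : ℕ} {ψ : Fam n M ℝ}
    (hψ : IsPos (k + 1) ψ) {s s' t : Fam n M ℂ} (hs : IsSec k s) (hs' : IsSec k s')
    (ht : IsSec k t) : dp μ φ ψ (s + s') t = dp μ φ ψ s t + dp μ φ ψ s' t := by
  unfold dp
  rw [← integral_add (B5b_int_en hφ hμ hψ hs ht) (B5b_int_en hφ hμ hψ hs' ht)]
  refine integral_congr_ae (Eventually.of_forall fun x => ?_)
  have h1 := B5b_dbv_add hs hs' (chart_mem_atlas (E n) x) (mem_chart_target (E n) x)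
  simp only [fn, en]
  rw [h1]
  simp only [cn, add_mul, Finset.sum_add_distrib]

theorem dp_smul_left (μ : Measure M) (φ ψ : Fam n M ℝ) (c : ℂ) (s t : Fam n M ℂ) :
    dp μ φ ψ (c • s) t = c * dp μ φ ψ s t := by
  unfold dp
  rw [← integral_const_mul]
  refine integral_congr_ae (Eventually.of_forall fun x => ?_)
  have h1 : dbv ((c • s) (chartAt (E n) x)) (chartAt (E n) x x)
      = fun j => c * dbv (s (chartAt (E n) x)) (chartAt (E n) x x) j := by
    funext j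
    exact db_const_mul c _ _ j
  simp only [fn, en]
  rw [h1]
  simp only [cn, Finset.mul_sum, Finset.sum_mul]
  refine Finset.sum_congr rfl fun i _ => Finset.sum_congr rfl fun j _ => ?_
  ring

theorem dp_self_nonneg (hφ : IsWeight 1 φ) (hμ : IsDens μ φ) {k : ℕ} {ψ : Fam n M ℝ}
    (hψ : IsPos (k + 1) ψ) {s : Fam n M ℂ} (hs : IsSec k s) : 0 ≤ (dp μ φ ψ s s).re := by
  have h : ∀ x, ∃ r : ℝ, 0 ≤ r ∧ fn φ (en ψ s s) x = (r : ℂ) := fun x => B5b_en_real φ hψ s x
  choose r hr0 hr using h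
  unfold dp
  rw [B5b_re_integral hr]
  exact integral_nonneg hr0

theorem dp_hol (hφ : IsWeight 1 φ) (hμ : IsDens μ φ) {k : ℕ} {ψ : Fam n M ℝ}
    (hψ : IsPos (k + 1) ψ) {s t : Fam n M ℂ} (hs : IsHol k s) (ht : IsSec k t) :
    dp μ φ ψ s t = 0 := by
  unfold dp
  have h : ∀ x, fn φ (en ψ s t) x = 0 := by
    intro x
    have hm := mem_chart_target (E n) x
    have h1 : dbv (s (chartAt (E n) x)) (chartAt (E n) x x) = fun _ => 0 := by
      funext j
      refine db_hol ?_ j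
      exact (hs.hol _ (chart_mem_atlas (E n) x)).differentiableAt
        ((chartAt (E n) x).open_target.mem_nhds hm)
    simp only [fn, en]
    rw [h1]
    simp [cn]
  have h2 : ∫ x, fn φ (en ψ s t) x ∂μ = ∫ _x : M, (0 : ℂ) ∂μ :=
    integral_congr_ae (Eventually.of_forall h)
  rw [h2, integral_zero]

end Pool.Agent.helper63.NU
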